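import Pool.Agent.Run7.h58.AR.Iface

/-! # Piece BDRY: equality on the axes -/

set_option autoImplicit false

open Complex

namespace Run7.h222.AR

open Pool.Agent.Run7.h58.AR

theorem sn_real (x : ℝ) : ∃ s : ℝ, sn (x : ℂ) = (s : ℂ) ∧ s * x = Real.sin x := by
  by_cases hx : x = 0
  · refine ⟨1, ?_, ?_⟩
    · rw [hx, sn, if_pos Complex.ofReal_zero, Complex.ofReal_one]
    · rw [hx, mul_zero, Real.sin_zero]
  · refine ⟨Real.sin x / x, ?_, div_mul_cancel₀ _ hx⟩
    rw [sn, if_neg (by exact_mod_cast hx)]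
    push_cast
    rfl

theorem sn_imag (y : ℝ) : ∃ s : ℝ, sn ((y : ℂ) * I) = (s : ℂ) ∧ s * y = Real.sinh y := by
  by_cases hy : y = 0
  · refine ⟨1, ?_, ?_⟩
    · rw [hy, sn, if_pos (by simp), Complex.ofReal_one]
    · rw [hy, mul_zero, Real.sinh_zero]
  · refine ⟨Real.sinh y / y, ?_, div_mul_cancel₀ _ hy⟩
    have hy' : (y : ℂ) ≠ 0 := by exact_mod_cast hy
    rw [sn, if_neg (mul_ne_zero hy' I_ne_zero), Complex.sin_mul_I,
      mul_div_mul_right _ _ I_ne_zero]
    push_cast
    rfl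

theorem sq_norm (z : ℂ) : ‖z‖ ^ 2 = z.re ^ 2 + z.im ^ 2 := by
  rw [← Complex.normSq_eq_norm_sq, Complex.normSq_apply]
  ring

theorem t_BDRY : S_BDRY := by
  intro v hv
  rcases hv with hv | hv
  · -- imaginary axis
    have hv' : v = (v.im : ℂ) * I := by
      apply Complex.ext
      · simp [hv]
      · simp
    rw [hv']
    generalize v.im = y
    obtain ⟨s, hs, hsy⟩ := sn_imag y
    have e1 : phi ((y : ℂ) * I) = (((1 + y ^ 2) * s / 2 : ℝ) : ℂ) := by
      rw [phi, hs, mul_pow, I_sq]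
      push_cast
      ring
    have e2 : AA ((y : ℂ) * I) = ((Real.cosh y : ℝ) : ℂ) + ((-((1 - y ^ 2) * s / 2) : ℝ) : ℂ) * I := by
      rw [AA, hs, mul_pow, I_sq, Complex.cos_mul_I]
      push_cast
      ring
    have h1 := Real.cosh_sq y
    constructor
    · rw [e1]
      exact Complex.ofReal_im _
    · rw [e1, e2, sq_norm, sq_norm, Complex.ofReal_re, Complex.ofReal_im]
      simp only [add_re, add_im, mul_re, mul_im, Complex.ofReal_re, Complex.ofReal_im, I_re, I_im]
      rw [← hsy] at h1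
      ring_nf at h1 ⊢
      rw [h1]
      ring
  · have hv' : v = (v.re : ℂ) := by
      apply Complex.ext
      · simp
      · simp [hv]
    rw [hv']
    generalize v.re = x
    obtain ⟨s, hs, hsx⟩ := sn_real x
    have e1 : phi (x : ℂ) = (((1 - x ^ 2) * s / 2 : ℝ) : ℂ) := by
      rw [phi, hs]
      push_cast
      ring
    have e2 : AA (x : ℂ) = ((Real.cos x : ℝ) : ℂ) + ((-((1 + x ^ 2) * s / 2) : ℝ) : ℂ) * I := by
      rw [AA, hs]
      push_cast
      ring
    have h1 := Real.cos_sq' x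
    constructor
    · rw [e1]
      exact Complex.ofReal_im _
    · rw [e1, e2, sq_norm, sq_norm, Complex.ofReal_re, Complex.ofReal_im]
      simp only [add_re, add_im, mul_re, mul_im, Complex.ofReal_re, Complex.ofReal_im, I_re, I_im]
      rw [← hsx] at h1
      ring_nf at h1 ⊢
      rw [h1]
      ring

end Run7.h222.AR
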